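import Pool.Agent.MP_291ce2_pr.Main

set_option autoImplicit false

namespace Pool.Agent.Results.MP_291ce2_pr.MixingTime

open Pool.Agent.MP_291ce2_pr

/-- **Question Q1, positive answer.** For every `c > 0` there is `C > 0` such that for all `n ≥ 2` and
every up-set `A` of the cube of uniform probability at least `c`, the mixing time of the censored
hypercube walk on `A` (the least `t` for which the law at time `t` is within `1/4` of uniform on `A` in
total variation, for every starting point in `A`) exists and is at most `C n log n`. -/
theorem result : ∀ c : ℝ, 0 < c → ∃ C : ℝ, 0 < C ∧ ∀ n : ℕ, 2 ≤ n → ∀ A : Set (X n),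
    IsUpperSet A → c ≤ prob A →
    ∃ t : ℕ, IsLeast {t : ℕ | ∀ x ∈ A, tv A x t ≤ 1 / 4} t ∧ (t : ℝ) ≤ C * n * Real.log n :=
  main_thm

end Pool.Agent.Results.MP_291ce2_pr.MixingTime
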